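import Pool.Agent.H57.AR.Targets

/-!
# (CF2) configurations of pairs without relations between more than two elements
(MP_6ab439_lc, all arities)
-/

set_option autoImplicit false

namespace Pool.Agent.H94.AR

open Pool.Agent.H68.BP Pool.Agent.H58.SF Pool.Agent.H53.GC Pool.Agent.H53.NR Pool.Agent.H53.GR
open Pool.Agent.H57.SO (Pal Col vt)
open Pool.Agent.H57.AR
open Function Classical

/-- The structure with given types of pairs. -/
def XX {ρ : Sig} {V W : Type} (𝔹 : Str ρ V) (v : W → V) (p q : W → W → V) : Str ρ W :=
  fun l z => (∃ x, (∀ i, z i = x) ∧ 𝔹 l (fun _ => v x)) ∨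
    ∃ x y, x ≠ y ∧ (∀ i, z i = x ∨ z i = y) ∧ (∃ i, z i = x) ∧ (∃ i, z i = y) ∧
      𝔹 l (fun i => if z i = y then q x y else p x y)

theorem XX_const {ρ : Sig} {V W : Type} {𝔹 : Str ρ V} {v : W → V} {p q : W → W → V}
    (har : ∀ l, 1 ≤ ρ.ar l) (l : Fin ρ.m) (x : W) :
    XX 𝔹 v p q l (fun _ => x) ↔ 𝔹 l (fun _ => v x) := by
  constructor
  · rintro (⟨x', h1, h2⟩ | ⟨x', y', h1, -, ⟨i, hi⟩, ⟨j, hj⟩, -⟩)
    · have h3 : x = x' := h1 ⟨0, har l⟩
      subst h3
      exact h2
    · exact absurd (hi.symm.trans hj) h1
  · intro h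
    exact Or.inl ⟨x, fun _ => rfl, h⟩

theorem XX_pair {ρ : Sig} {V W S X : Type} {P : Pal S X} {𝔹 : Str ρ V} {c : V → V → S ⊕ X}
    (hL : Lnk P 𝔹 c) (har : ∀ l, 1 ≤ ρ.ar l) {v : W → V} {p q : W → W → V} {t : W → S}
    {d : W → W → X} (hv : ∀ x, c (v x) (v x) = Sum.inl (t x))
    (hpq : ∀ x y, c (p x y) (q x y) = Sum.inr (d x y))
    (hp : ∀ x y, x ≠ y → c (p x y) (p x y) = Sum.inl (t x))
    (hq : ∀ x y, x ≠ y → c (q x y) (q x y) = Sum.inl (t y))
    (hqp : ∀ x y, x ≠ y → c (q y x) (p y x) = Sum.inr (d x y)) (l : Fin ρ.m) {x y : W}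
    (hxy : x ≠ y) (g : Fin (ρ.ar l) → Bool) :
    XX 𝔹 v p q l (fun i => if g i = true then y else x) ↔
      𝔹 l (fun i => if g i = true then q x y else p x y) := by
  by_cases hc : ∀ i, g i = false
  · have e1 : (fun i => if g i = true then y else x) = fun _ => x := by
      funext i
      rw [hc i]
      simp
    have e2 : (fun i => if g i = true then q x y else p x y) = fun _ => p x y := by
      funext i
      rw [hc i]
      simp
    rw [e1, e2, XX_const har]
    have h := ((hL.eq (v x) (v x) (p x y) (p x y)).1 (by rw [hv, hp x y hxy])).2 l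
      (fun _ => true)
    simpa using h
  by_cases hc' : ∀ i, g i = true
  · have e1 : (fun i => if g i = true then y else x) = fun _ => y := by
      funext i
      rw [hc' i]
      simp
    have e2 : (fun i => if g i = true then q x y else p x y) = fun _ => q x y := by
      funext i
      rw [hc' i]
      simp
    rw [e1, e2, XX_const har]
    have h := ((hL.eq (v y) (v y) (q x y) (q x y)).1 (by rw [hv, hq x y hxy])).2 l
      (fun _ => true)
    simpa using h
  rw [not_forall] at hc hc'
  obtain ⟨i0, hi0⟩ := hc
  obtain ⟨j0, hj0⟩ := hc'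
  have hi0' : g i0 = true := by simpa using hi0
  have hj0' : g j0 = false := by simpa using hj0
  have hyi : (if g i0 = true then y else x) = y := by rw [hi0']; simp
  have hxj : (if g j0 = true then y else x) = x := by rw [hj0']; simp
  have e3 : (fun i => if (if g i = true then y else x) = y then q x y else p x y) =
      fun i => if g i = true then q x y else p x y := by
    funext i
    cases g i
    · simp [hxy]
    · simp
  constructor
  · rintro (⟨x', h1, h2⟩ | ⟨x', y', h1, h2, ⟨i, hi⟩, ⟨j, hj⟩, h3⟩)
    · have h4 := h1 i0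
      have h5 := h1 j0
      simp only [hyi] at h4
      simp only [hxj] at h5
      exact absurd (h5.trans h4.symm) hxy
    · have h4 := h2 i0
      have h5 := h2 j0
      simp only [hyi] at h4
      simp only [hxj] at h5
      rcases h5 with h5 | h5
      · rcases h4 with h4 | h4
        · exact absurd (h5.trans h4.symm) hxy
        · subst h4 h5
          rw [e3] at h3
          exact h3
      · rcases h4 with h4 | h4
        · subst h4 h5
          have e4 : (fun i => if (if g i = true then y else x) = x then q y x else p y x) =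
              fun i => if g i = true then p y x else q y x := by
            funext i
            cases g i
            · simp
            · simp [hxy.symm]
          rw [e4] at h3
          exact (((hL.eq (q y x) (p y x) (p x y) (q x y)).1
            (by rw [hqp x y hxy, hpq x y])).2 l g).1 h3
        · exact absurd (h5.trans h4.symm) hxy
  · intro h
    refine Or.inr ⟨x, y, hxy, fun i => ?_, ⟨j0, hxj⟩, ⟨i0, hyi⟩, ?_⟩
    · by_cases hg : g i = true
      · exact Or.inr (if_pos hg)
      · exact Or.inl (if_neg hg)
    · show 𝔹 l (fun i => if (if g i = true then y else x) = y then q x y else p x y)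
      rw [e3]
      exact h

theorem pf_CF2 (hCFR : T_CFR) : T_CF2 := by
  intro σ ρ V S X _ P 𝔸 𝔹 M c hS W R _ _ rk t d hrk h1 h2
  have hL := hS.lnk
  have hcol := hL.col
  have har : ∀ l, 1 ≤ ρ.ar l := fun l => (hS.base.ar l).1
  choose p q hpq using fun x y => hcol.surX (d x y)
  choose v hv using fun x => hcol.surS (t x)
  have hpne : ∀ x y, p x y ≠ q x y := by
    intro x y h
    obtain ⟨s, hs⟩ := (hcol.eq_iff _ _).2 h
    rw [hpq] at hs
    exact absurd hs (by simp)
  have hp : ∀ x y, x ≠ y → c (p x y) (p x y) = Sum.inl (t x) := by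
    intro x y hxy
    rw [hcol.left _ _ _ (hpq x y), (h1 x y hxy).1]
  have hswap : ∀ x y, x ≠ y → c (q y x) (p y x) = Sum.inr (d x y) := by
    intro x y hxy
    rw [hcol.swap _ _ _ (hpq y x), (h1 y x hxy.symm).2]
  have hq : ∀ x y, x ≠ y → c (q x y) (q x y) = Sum.inl (t y) := by
    intro x y hxy
    rw [hcol.left _ _ _ (hswap y x hxy.symm), (h1 y x hxy.symm).1]
  have hvt : ∀ (x : V) (s : S), c x x = Sum.inl s → vt P c x = s := by
    intro x s h
    unfold vt
    rw [h]
    rfl
  have K := fun (l : Fin ρ.m) (x y : W) (hxy : x ≠ y) (g : Fin (ρ.ar l) → Bool) =>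
    XX_pair hL har hv hpq hp hq hswap l hxy g
  have hOK : OK 𝔹 M (XX 𝔹 v p q) := by
    intro m s _ hs hirr
    have hC : ∀ a b, a ≠ b → d (s a) (s b) ≠ P.fr (t (s a)) (t (s b)) := by
      intro a b hab hfr
      obtain ⟨l, z, hz, ⟨i, hi⟩, ⟨j, hj⟩⟩ := hirr a b hab
      have hsab : s a ≠ s b := fun h => hab (hs h)
      have hz' : XX 𝔹 v p q l (fun i => s (z i)) := hz
      have hval : ∀ i', s (z i') = s a ∨ s (z i') = s b := by
        rcases hz' with ⟨x', h3, -⟩ | ⟨x', y', h3, h4, -, -, -⟩
        · have h5 := h3 i
          have h6 := h3 j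
          simp only [hi] at h5
          simp only [hj] at h6
          exact absurd (h5.trans h6.symm) hsab
        · have h5 := h4 i
          have h6 := h4 j
          simp only [hi] at h5
          simp only [hj] at h6
          intro i'
          have h7 := h4 i'
          rcases h5 with h5 | h5
          · rcases h6 with h6 | h6
            · exact absurd (h5.trans h6.symm) hsab
            · rw [h5, h6]
              exact h7
          · rcases h6 with h6 | h6
            · rw [h5, h6]
              exact h7.symm
            · exact absurd (h5.trans h6.symm) hsab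
      have e : (fun i => s (z i)) =
          fun i => if decide (s (z i) = s b) = true then s b else s a := by
        funext i'
        rcases hval i' with h | h
        · rw [h]
          simp [hsab]
        · rw [h]
          simp
      rw [e, K l _ _ hsab] at hz'
      have h8 := (hL.free _ _ (hpne (s a) (s b))).1 (by
        rw [hpq, hvt _ _ (hp _ _ hsab), hvt _ _ (hq _ _ hsab), hfr]) l _ hz'
      rcases h8 with h8 | h8
      · have := h8 i
        rw [hi] at this
        exact hsab (of_decide_eq_true this)
      · have := h8 j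
        rw [hj] at this
        simp at this
    have hm : m ≤ 2 := by
      by_contra hm
      have n1 : (⟨0, by omega⟩ : Fin m) ≠ ⟨1, by omega⟩ := by simp
      have n2 : (⟨1, by omega⟩ : Fin m) ≠ ⟨2, by omega⟩ := by simp
      have n3 : (⟨0, by omega⟩ : Fin m) ≠ ⟨2, by omega⟩ := by simp
      rcases h2 (s ⟨0, by omega⟩) (s ⟨1, by omega⟩) (s ⟨2, by omega⟩)
        (fun h => n1 (hs h)) (fun h => n2 (hs h)) (fun h => n3 (hs h)) with h | h | h
      · exact hC _ _ n1 h
      · exact hC _ _ n2 h
      · exact hC _ _ n3 h
    interval_cases m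
    · refine ⟨fun a => a.elim0, fun a => a.elim0, fun l z => (z ⟨0, har l⟩).elim0⟩
    · refine ⟨fun _ => v (s 0), fun a b _ => Subsingleton.elim a b, fun l z => ?_⟩
      have e : (fun i => s (z i)) = fun _ => s 0 := by
        funext i
        rw [Subsingleton.elim (z i) 0]
      show XX 𝔹 v p q l (fun i => s (z i)) ↔ _
      rw [e, XX_const har]
    · have hs01 : s 0 ≠ s 1 := fun h => absurd (hs h) (by simp)
      refine ⟨fun a => if a = 1 then q (s 0) (s 1) else p (s 0) (s 1), ?_, fun l z => ?_⟩
      · intro a b hab
        have h9 := hpne (s 0) (s 1)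
        fin_cases a <;> fin_cases b
        · rfl
        · exact absurd (by simpa using hab) h9
        · exact absurd (by simpa using hab.symm) h9
        · rfl
      · have e : (fun i => s (z i)) =
            fun i => if decide (z i = 1) = true then s 1 else s 0 := by
          funext i
          by_cases h : z i = 1
          · simp [h]
          · have h' : z i = 0 := by
              have := (z i).isLt
              apply Fin.ext
              have : (z i : ℕ) ≠ 1 := fun h' => h (Fin.ext h')
              simp only [Fin.val_zero]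
              omega
            rw [h']
            simp
        show XX 𝔹 v p q l (fun i => s (z i)) ↔ _
        rw [e, K l _ _ hs01]
        simp only [decide_eq_true_eq]
  obtain ⟨f, hf1, hf2⟩ := hCFR ρ V 𝔹 M hS.base.univ W R rk hrk (XX 𝔹 v p q) hOK
  have hB : ∀ (l : Fin ρ.m) (z : Fin (ρ.ar l) → W),
      𝔹 l (fun i => f (z i)) ↔ XX 𝔹 v p q l z := fun l z => by
    rw [← hf2]
    exact Iff.rfl
  have hinj : ∀ x y, x ≠ y → f x ≠ f y := by
    intro x y hxy h
    rcases lt_or_gt_of_ne (fun h' => hxy (hrk h')) with h' | h'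
    · exact absurd ((hf1 x y).2 h') (by rw [h]; exact lt_irrefl _)
    · exact absurd ((hf1 y x).2 h') (by rw [h]; exact lt_irrefl _)
  refine ⟨f, hf1, fun x => ?_, fun x y hxy => ?_, fun l z hz => ?_⟩
  · rw [← hv x, hL.eq]
    refine ⟨by simp, fun l g => ?_⟩
    simp only [ite_self]
    exact (hB l (fun _ => x)).trans (XX_const (p := p) (q := q) har l x)
  · rw [← hpq x y, hL.eq]
    refine ⟨⟨fun h => absurd h (hinj x y hxy), fun h => absurd h (hpne x y)⟩, fun l g => ?_⟩
    rw [← K l x y hxy g, ← hB]
    have e : (fun i => if g i = true then f y else f x) =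
        fun i => f (if g i = true then y else x) := by
      funext i
      split <;> rfl
    rw [e]
  · rcases (hB l z).1 hz with ⟨x', h3, -⟩ | ⟨x', y', -, h4, -, -, -⟩
    · exact ⟨x', x', fun i => Or.inl (by rw [h3])⟩
    · refine ⟨x', y', fun i => ?_⟩
      rcases h4 i with h | h
      · exact Or.inl (by rw [h])
      · exact Or.inr (by rw [h])

end Pool.Agent.H94.AR
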