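import Pool.Agent.H57.AR.Targets
import Pool.Agent.H50.AR.SYS

/-!
# (SYR) systems of copies (MP_6ab439_lc, all arities)
-/

set_option autoImplicit false

namespace Pool.Agent.H94.AR

open Pool.Agent.H68.BP Pool.Agent.H58.SF Pool.Agent.H53.GC Pool.Agent.H53.NR Pool.Agent.H53.GR
open Pool.Agent.H57.SO (Pal Col vt)
open Pool.Agent.H57.AR
open Function

/-- tuples with two entries and maps -/
theorem ite_map {A B I : Type} (f : A → B) (x y : A) (g : I → Bool) :
    (fun i => if g i = true then f y else f x) = fun i => f (if g i = true then y else x) := by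
  funext i
  split <;> rfl

theorem pf_SYR : T_SYR := by
  intro σ ρ V S X _ P 𝔸 𝔹 M c hS W R _ _ rk u r hrk hsym
  let _ : LinearOrder W := LinearOrder.lift' rk hrk
  obtain ⟨f, hf, hB⟩ := Pool.Agent.H50.AR.sysR (𝔹 := 𝔹) (M := M) hS.base.univ u r
  have hL := hS.lnk
  have hord : ∀ x y, f x < f y ↔ rk x < rk y := fun x y => hf.lt_iff_lt
  have h1 : ∀ x, c (f x) (f x) = c (u x) (u x) := by
    intro x
    rw [hL.eq]
    refine ⟨by simp, fun l g => ?_⟩
    simp only [ite_self]
    have := hB l (fun _ => x)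
    rw [this]
    exact ⟨fun h => h.1, fun h => ⟨h, fun _ _ => Or.inl rfl⟩⟩
  have hvt : ∀ x, vt P c (f x) = vt P c (u x) := by
    intro x
    unfold vt
    rw [h1]
  refine ⟨f, hord, hB, h1, fun x y hxy => ⟨fun hr hu => ?_, fun hn => ?_⟩⟩
  · rw [hL.eq]
    refine ⟨⟨fun h => absurd (hf.injective h) hxy, fun h => absurd h hu⟩, fun l g => ?_⟩
    rw [ite_map f x y g, ite_map u x y g, hB]
    refine ⟨fun h => h.1, fun h => ⟨h, fun i j => ?_⟩⟩
    cases hi : g i <;> cases hj : g j
    · exact Or.inl (by simp)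
    · refine Or.inr ?_
      simp only [Bool.false_eq_true, if_false, if_true]
      exact ⟨hr, hu⟩
    · refine Or.inr ?_
      simp only [Bool.false_eq_true, if_false, if_true]
      exact ⟨hsym _ _ hr, hu.symm⟩
    · exact Or.inl (by simp)
  · rw [← hvt, ← hvt]
    refine (hL.free _ _ fun h => hxy (hf.injective h)).2 fun l g hg => ?_
    rw [ite_map f x y g, hB] at hg
    by_contra hcon
    rw [not_or] at hcon
    obtain ⟨hc1, hc2⟩ := hcon
    rw [not_forall] at hc1 hc2
    obtain ⟨i, hi⟩ := hc1
    obtain ⟨j, hj⟩ := hc2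
    have hi' : g i = false := by simpa using hi
    have hj' : g j = true := by simpa using hj
    have h2 := hg.2 i j
    rw [hi', hj'] at h2
    simp only [Bool.false_eq_true, if_false, if_true] at h2
    rcases h2 with h2 | h2
    · exact hxy h2
    · exact hn h2

end Pool.Agent.H94.AR
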